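import Mathlib
import Pool.Agent.K1H81.DC.Stm
set_option autoImplicit false
/-!
Piece LD of the project DC.
-/
namespace Pool.Agent.K1H58.DC

open Finset hiding val
open MeasureTheory ProbabilityTheory
open Pool.Agent.Y722.HS Pool.Agent.X280.HG Pool.Agent.X280.BP Pool.Agent.X280.UC
open Pool.Agent.K1H81.HV (KK NV PF DD ev Fr deg Dep WD mean)
open Pool.Agent.K1H81.DC

theorem bdd_eval {r : ℕ} (Ψ : MvPolynomial (Fin r) ℝ) (B : ℝ) :
    ∃ K : ℝ, 0 ≤ K ∧ ∀ x : Fin r → ℝ, (∀ i, |x i| ≤ B) → |MvPolynomial.eval x Ψ| ≤ K := by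
  obtain ⟨K, hK⟩ := (isCompact_closedBall (0 : Fin r → ℝ) (max B 0)).exists_bound_of_continuousOn
    (MvPolynomial.continuous_eval Ψ).continuousOn
  refine ⟨max K 0, le_max_right _ _, fun x hx => ?_⟩
  have h1 : x ∈ Metric.closedBall (0 : Fin r → ℝ) (max B 0) := by
    rw [mem_closedBall_zero_iff, pi_norm_le_iff_of_nonneg (le_max_right _ _)]
    intro i
    rw [Real.norm_eq_abs]
    exact (hx i).trans (le_max_left _ _)
  have h2 := hK x h1
  rw [Real.norm_eq_abs] at h2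
  exact h2.trans (le_max_left _ _)

open Classical in
theorem aux (hMV : S_MV) {m d r : ℕ} (hm : 1 ≤ m) {B : ℝ}
    (hB : ∀ (p : ℕ) [Fact p.Prime], p ≠ 2 → ∀ k ∈ Icc 1 r, ∀ c : Mon (2 * m) d → ZMod p,
      c = 0 → |tm m d p k c| ≤ B)
    (hcard : 1 ≤ Fintype.card (Mon (2 * m) d))
    (E : ℕ) (Ψ : MvPolynomial (Fin r) ℝ) (hΨ : WD E Ψ) (hE : E ≤ d + 1) :
    ∃ K : ℝ, 0 ≤ K ∧ ∀ (p : ℕ) [Fact p.Prime], p ≠ 2 → ∀ F : (Mon (2 * m) d → ZMod p) → ℝ,
      (∀ c, F c ≤ (if c = 0 then 1 else 1 / (p : ℝ)) *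
        MvPolynomial.eval (fun i : Fin r => tm m d p ((i : ℕ) + 1) c) Ψ) →
      EM p F ≤ K / p := by
  obtain ⟨C, hC0, hC⟩ := hMV r E Ψ hΨ
  obtain ⟨K, hK0, hK⟩ := bdd_eval Ψ B
  refine ⟨|mean Ψ| + C + K, by positivity, fun p hp h2 F hF => ?_⟩
  have hp1 : (1 : ℝ) ≤ p := by exact_mod_cast hp.out.one_lt.le
  have hp0 : (0 : ℝ) < p := by linarith
  set G : (Mon (2 * m) d → ZMod p) → ℝ := fun c =>
    MvPolynomial.eval (fun i : Fin r => tm m d p ((i : ℕ) + 1) c) Ψ with hG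
  have h1 : ∀ c, F c ≤ 1 / (p : ℝ) * G c + (if c = 0 then K else 0) := by
    intro c
    refine (hF c).trans ?_
    by_cases hc : c = 0
    · rw [if_pos hc, if_pos hc]
      have h3 : |G c| ≤ K := by
        apply hK
        intro i
        exact hB p h2 _ (Finset.mem_Icc.2 ⟨by omega, by omega⟩) c hc
      have h4 : (1 - 1 / (p : ℝ)) * G c ≤ K := by
        have h5 : 0 ≤ 1 - 1 / (p : ℝ) := by
          rw [sub_nonneg, div_le_one hp0]
          exact hp1
        have h6 : 1 - 1 / (p : ℝ) ≤ 1 := by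
          have : 0 < 1 / (p : ℝ) := by positivity
          linarith
        calc (1 - 1 / (p : ℝ)) * G c ≤ (1 - 1 / (p : ℝ)) * K :=
              mul_le_mul_of_nonneg_left ((le_abs_self _).trans h3) h5
          _ ≤ 1 * K := mul_le_mul_of_nonneg_right h6 hK0
          _ = K := one_mul K
      have h7 : (1 : ℝ) * G c = 1 / (p : ℝ) * G c + (1 - 1 / (p : ℝ)) * G c := by ring
      show (1 : ℝ) * G c ≤ _
      rw [h7]
      linarith
    · rw [if_neg hc, if_neg hc, add_zero]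
  have h3 := EM_mono' p F _ h1
  rw [EM_add', EM_mul'] at h3
  have h4 : EM p (fun c : Mon (2 * m) d → ZMod p => if c = 0 then K else 0) ≤ K / p := by
    unfold EM
    rw [Finset.sum_ite_eq' Finset.univ 0 (fun _ => K), if_pos (Finset.mem_univ _)]
    refine div_le_div_of_nonneg_left hK0 hp0 ?_
    calc (p : ℝ) = (p : ℝ) ^ 1 := (pow_one _).symm
      _ ≤ (p : ℝ) ^ Fintype.card (Mon (2 * m) d) := pow_le_pow_right₀ hp1 hcard
  have h5 := (abs_le.mp (hC m d hm hE p h2)).2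
  have h6 : C / p ≤ C := div_le_self hC0 hp1
  have h7 := le_abs_self (mean Ψ)
  have h8 : 1 / (p : ℝ) * EM p G ≤ (|mean Ψ| + C) / p := by
    rw [one_div, inv_mul_eq_div]
    refine div_le_div_of_nonneg_right ?_ hp0.le
    show EM p G ≤ _
    linarith
  calc EM p F ≤ 1 / (p : ℝ) * EM p G + EM p (fun c => if c = 0 then K else 0) := h3
    _ ≤ (|mean Ψ| + C) / p + K / p := add_le_add h8 h4
    _ = (|mean Ψ| + C + K) / p := by ring

theorem card_Mon (n d : ℕ) : 1 ≤ Fintype.card (Mon n d) := by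
  classical
  refine Fintype.card_pos_iff.2 ⟨⟨fun i => if i = 0 then Fin.last d else 0, ?_⟩⟩
  rw [Finset.sum_eq_single (0 : Fin (n + 1))]
  · simp
  · intro b _ hb
    simp [hb]
  · intro h
    exact absurd (Finset.mem_univ _) h

theorem t (hMV : S_MV) (hN : S_NEAR) (hP : S_PERT) : S_LD := by
  intro r D φ hφ m d hm hd
  classical
  obtain ⟨B, hB0, hB⟩ := hN m d r hm
  obtain ⟨C1, h10, h1⟩ := hMV r D φ hφ
  obtain ⟨C2, h20, h2⟩ := hMV r (2 * D) (φ ^ 2) (hφ.pow 2)
  obtain ⟨C4, h40, h4⟩ := hMV r (4 * D) (φ ^ 4) (hφ.pow 4)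
  obtain ⟨⟨Ψ1, w1, e1⟩, ⟨Ψ4, w4, e4⟩⟩ := hP r D φ hφ B hB0
  obtain ⟨⟨Ψ2, w2, e2⟩, _⟩ := hP r (2 * D) (φ ^ 2) (hφ.pow 2) B hB0
  have hB' : ∀ (p : ℕ) [Fact p.Prime], p ≠ 2 → ∀ k ∈ Icc 1 r, ∀ c : Mon (2 * m) d → ZMod p,
      c = 0 → |tm m d p k c| ≤ B := fun p _ hp2 k hk c hc => (hB p hp2 k hk c).2 hc
  obtain ⟨K1, k10, k1⟩ := aux hMV hm hB' (card_Mon _ _) (2 * D) Ψ1 w1 (by omega)
  obtain ⟨K2, k20, k2⟩ := aux hMV hm hB' (card_Mon _ _) (2 * (2 * D)) Ψ2 w2 (by omega)
  obtain ⟨K4, k40, k4⟩ := aux hMV hm hB' (card_Mon _ _) (4 * D) Ψ4 w4 (by omega)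
  -- the perturbation parameter
  have near : ∀ (p : ℕ) [Fact p.Prime], p ≠ 2 → ∀ c : Mon (2 * m) d → ZMod p,
      0 ≤ (if c = 0 then (1 : ℝ) else 1 / (p : ℝ)) ∧ (if c = 0 then (1 : ℝ) else 1 / (p : ℝ)) ≤ 1 ∧
      ∀ i : Fin r, |tq m d p ((i : ℕ) + 1) c - tm m d p ((i : ℕ) + 1) c| ≤
        B * (if c = 0 then (1 : ℝ) else 1 / (p : ℝ)) := by
    intro p hp hp2 c
    have hp1 : (1 : ℝ) ≤ p := by exact_mod_cast hp.out.one_lt.le
    refine ⟨?_, ?_, fun i => ?_⟩
    · split_ifs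
      · exact zero_le_one
      · positivity
    · split_ifs
      · exact le_refl _
      · rw [div_le_one (by linarith)]
        exact hp1
    · have := (hB p hp2 ((i : ℕ) + 1) (Finset.mem_Icc.2 ⟨by omega, by omega⟩) c).1
      convert this using 2
  set C := C1 + K1 + (C2 + K2) + (8 * (C4 + |mean (φ ^ 4)|) + 8 * K4) + 2 * |mean φ| +
    2 * |mean (φ ^ 2)| with hC
  have n1 := abs_nonneg (mean φ)
  have n2 := abs_nonneg (mean (φ ^ 2))
  have n4 := abs_nonneg (mean (φ ^ 4))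
  have hCC : 0 ≤ C := by positivity
  have hle : ∀ p : ℕ, p.Prime → ∀ c : ℝ, c ≤ C → c / p ≤ C / p := by
    intro p hp c hc
    have : (0 : ℝ) < p := by exact_mod_cast hp.pos
    gcongr
  have U2 : ∀ c : Mon (2 * m) d → ZMod 2, UU φ m d 2 c = 0 := by
    intro c
    unfold UU
    rw [dif_neg]
    rintro ⟨-, h⟩
    exact h rfl
  have Uq : ∀ (p : ℕ) [hp : Fact p.Prime], p ≠ 2 → ∀ c : Mon (2 * m) d → ZMod p, UU φ m d p c =
      MvPolynomial.eval (fun i : Fin r => tq m d p ((i : ℕ) + 1) c) φ := by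
    intro p hp hp2 c
    unfold UU
    rw [dif_pos ⟨hp.out, hp2⟩]
  refine ⟨C, hCC, fun p hp _ => ?_, fun p hp _ => ?_, fun p hp _ => ?_⟩
  · have : Fact p.Prime := ⟨hp⟩
    by_cases hp2 : p = 2
    · subst hp2
      have e : EM 2 (UU φ m d 2) = 0 := by
        unfold EM
        simp only [U2, Finset.sum_const_zero, zero_div]
      rw [e, zero_sub, abs_neg, le_div_iff₀ (by norm_num)]
      push_cast
      linarith
    · have a1 := h1 m d hm (by omega) p hp2
      have a2 := k1 p hp2 (fun c => |MvPolynomial.eval (fun i : Fin r => tq m d p ((i : ℕ) + 1) c) φ -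
        MvPolynomial.eval (fun i : Fin r => tm m d p ((i : ℕ) + 1) c) φ|) (fun c => by
          obtain ⟨g1, g2, g3⟩ := near p hp2 c
          have := e1 _ _ _ g1 g2 g3
          convert this using 2)
      have a3 := EM_abs_le p (fun c : Mon (2 * m) d → ZMod p =>
        MvPolynomial.eval (fun i : Fin r => tq m d p ((i : ℕ) + 1) c) φ -
        MvPolynomial.eval (fun i : Fin r => tm m d p ((i : ℕ) + 1) c) φ) _ (fun c => le_refl _)
      rw [EM_sub'] at a3
      have e : EM p (UU φ m d p) = EM p (fun c : Mon (2 * m) d → ZMod p =>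
          MvPolynomial.eval (fun i : Fin r => tq m d p ((i : ℕ) + 1) c) φ) := by
        congr 1
        funext c
        exact Uq p hp2 c
      rw [e]
      refine le_trans ?_ (hle p hp (C1 + K1) (by linarith))
      rw [add_div]
      have a4 := a3.trans a2
      rw [abs_le] at a1 a4 ⊢
      constructor <;> linarith [a1.1, a1.2, a4.1, a4.2]
  · have : Fact p.Prime := ⟨hp⟩
    by_cases hp2 : p = 2
    · subst hp2
      have e : EM 2 (fun c => UU φ m d 2 c ^ 2) = 0 := by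
        unfold EM
        simp [U2]
      rw [e, zero_sub, abs_neg, le_div_iff₀ (by norm_num)]
      push_cast
      linarith
    · have a1 := h2 m d hm (by omega) p hp2
      have a2 := k2 p hp2 (fun c =>
        |MvPolynomial.eval (fun i : Fin r => tq m d p ((i : ℕ) + 1) c) (φ ^ 2) -
        MvPolynomial.eval (fun i : Fin r => tm m d p ((i : ℕ) + 1) c) (φ ^ 2)|) (fun c => by
          obtain ⟨g1, g2, g3⟩ := near p hp2 c
          have := e2 _ _ _ g1 g2 g3
          convert this using 2)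
      have a3 := EM_abs_le p (fun c : Mon (2 * m) d → ZMod p =>
        MvPolynomial.eval (fun i : Fin r => tq m d p ((i : ℕ) + 1) c) (φ ^ 2) -
        MvPolynomial.eval (fun i : Fin r => tm m d p ((i : ℕ) + 1) c) (φ ^ 2)) _ (fun c => le_refl _)
      rw [EM_sub'] at a3
      have e : EM p (fun c => UU φ m d p c ^ 2) = EM p (fun c : Mon (2 * m) d → ZMod p =>
          MvPolynomial.eval (fun i : Fin r => tq m d p ((i : ℕ) + 1) c) (φ ^ 2)) := by
        congr 1
        funext c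
        rw [Uq p hp2 c, map_pow]
      rw [e]
      refine le_trans ?_ (hle p hp (C2 + K2) (by linarith))
      rw [add_div]
      have a4 := a3.trans a2
      rw [abs_le] at a1 a4 ⊢
      constructor <;> linarith [a1.1, a1.2, a4.1, a4.2]
  · have : Fact p.Prime := ⟨hp⟩
    by_cases hp2 : p = 2
    · subst hp2
      have e : EM 2 (fun c => UU φ m d 2 c ^ 4) = 0 := by
        unfold EM
        simp [U2]
      rw [e]
      exact hCC
    · have a1 := h4 m d hm hd p hp2
      have a2 := k4 p hp2 (fun c =>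
        (MvPolynomial.eval (fun i : Fin r => tq m d p ((i : ℕ) + 1) c) φ -
        MvPolynomial.eval (fun i : Fin r => tm m d p ((i : ℕ) + 1) c) φ) ^ 4) (fun c => by
          obtain ⟨g1, g2, g3⟩ := near p hp2 c
          have := e4 _ _ _ g1 g2 g3
          convert this using 2)
      have a3 := EM_mono' p (fun c => UU φ m d p c ^ 4) (fun c : Mon (2 * m) d → ZMod p =>
        8 * MvPolynomial.eval (fun i : Fin r => tm m d p ((i : ℕ) + 1) c) (φ ^ 4) +
        8 * (MvPolynomial.eval (fun i : Fin r => tq m d p ((i : ℕ) + 1) c) φ -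
        MvPolynomial.eval (fun i : Fin r => tm m d p ((i : ℕ) + 1) c) φ) ^ 4) (fun c => by
          rw [Uq p hp2 c, map_pow]
          set u := MvPolynomial.eval (fun i : Fin r => tq m d p ((i : ℕ) + 1) c) φ
          set v := MvPolynomial.eval (fun i : Fin r => tm m d p ((i : ℕ) + 1) c) φ
          have q1 : (u + 0) ^ 2 ≤ 2 * v ^ 2 + 2 * (u - v) ^ 2 := by nlinarith [sq_nonneg (u - 2 * v)]
          have q2 : u ^ 4 ≤ (2 * v ^ 2 + 2 * (u - v) ^ 2) ^ 2 := by
            have : u ^ 4 = ((u + 0) ^ 2) ^ 2 := by ring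
            rw [this]
            exact pow_le_pow_left₀ (sq_nonneg _) q1 2
          have q3 : (2 * v ^ 2 + 2 * (u - v) ^ 2) ^ 2 ≤ 8 * v ^ 4 + 8 * (u - v) ^ 4 := by
            nlinarith [sq_nonneg (v ^ 2 - (u - v) ^ 2)]
          exact q2.trans q3)
      rw [EM_add', EM_mul', EM_mul'] at a3
      have hp1 : (1 : ℝ) ≤ p := by exact_mod_cast hp.one_lt.le
      have a5 := (abs_le.mp a1).2
      have h6 : C4 / p ≤ C4 := div_le_self h40 hp1
      have h8 : K4 / p ≤ K4 := div_le_self k40 hp1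
      have h7 := le_abs_self (mean (φ ^ 4))
      refine a3.trans ?_
      linarith

end Pool.Agent.K1H58.DC
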